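import Pool.Agent.Helper31.BB6.Pairs

/-!
# MP_8c0c42_lc: no inductive invariant of the six state machine Antihydra is automatic
-/

set_option autoImplicit false

namespace Pool.Agent.Results.MP_8c0c42_lc.AutomataBarrier

open Turing Pool.Agent.Helper31.BB6

/-- value of a list of digits in base `k`, most significant digit first -/
def value (k : ℕ) (w : List (Fin k)) : ℕ := w.foldl (fun (a : ℕ) (d : Fin k) => a * k + (d : ℕ)) 0

/-- the language `L` of words of pairs of base `k` digits describes the set `A` of pairs -/
def Describes (k : ℕ) (L : Language (Fin k × Fin k)) (A : Set (ℕ × ℕ)) : Prop :=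
  ∀ w : List (Fin k × Fin k), w ∈ L ↔ (value k (w.map Prod.fst), value k (w.map Prod.snd)) ∈ A

/-- the sections of the `k`-kernel of a set of pairs: the sets `{ν | (c, k^r ν + ρ) ∈ A}` with `c, ρ < k^r` -/
def kernel (k : ℕ) (A : Set (ℕ × ℕ)) : Set (Set ℕ) :=
  {B | ∃ r c ρ, c < k ^ r ∧ ρ < k ^ r ∧ B = {ν | (c, k ^ r * ν + ρ) ∈ A}}

section
variable {I : Set (Cfg 6)} (hI : Invariant antihydra I)
include hI

/-! ### the kernel and automatic sets -/

theorem kernel_infinite (k : ℕ) (hk : 2 ≤ k) : (kernel k (pairs I)).Infinite :=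
  ker_infinite (clo hI) (start_pair hI) hk

end

lemma value_append {k : ℕ} (u v : List (Fin k)) : value k (u ++ v) = value k u * k ^ v.length + value k v := by
  have h : ∀ (v : List (Fin k)) (x : ℕ),
      v.foldl (fun (a : ℕ) (d : Fin k) => a * k + (d : ℕ)) x = x * k ^ v.length + value k v := by
    intro v
    induction v with
    | nil => intro x; simp [value]
    | cons d v ih =>
      intro x
      simp only [value, List.foldl_cons, List.length_cons]
      rw [ih (x * k + d), ih (0 * k + d)]
      ring
  unfold value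
  rw [List.foldl_append, h]
  rfl

lemma exists_word {k : ℕ} (hk : 1 ≤ k) (r : ℕ) : ∀ x, x < k ^ r → ∃ v : List (Fin k), v.length = r ∧ value k v = x := by
  induction r with
  | zero =>
    intro x hx
    refine ⟨[], rfl, ?_⟩
    rw [pow_zero] at hx
    simp only [value, List.foldl_nil]
    omega
  | succ r ih =>
    intro x hx
    obtain ⟨v, hv, hvx⟩ := ih (x / k) (Nat.div_lt_of_lt_mul (by rwa [mul_comm, ← pow_succ]))
    refine ⟨v ++ [⟨x % k, Nat.mod_lt _ (by omega)⟩], by simp [hv], ?_⟩
    rw [value_append, hvx]
    simp only [List.length_singleton, pow_one, value, List.foldl_cons, List.foldl_nil, zero_mul, zero_add]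
    rw [mul_comm]
    exact Nat.div_add_mod x k

lemma value_zeros {k : ℕ} (z : Fin k) (hz : (z : ℕ) = 0) (v : List (Fin k)) : value k (v.map fun _ => z) = 0 := by
  induction v using List.reverseRecOn with
  | nil => rfl
  | append_singleton v d ih =>
    rw [List.map_append, value_append, ih]
    simp [value, hz]

/-- an automatic set of pairs has a finite kernel -/
lemma kernel_finite {k : ℕ} (hk : 2 ≤ k) {A : Set (ℕ × ℕ)} (L : Language (Fin k × Fin k)) (hL : L.IsRegular)
    (hd : Describes k L A) : (kernel k A).Finite := by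
  obtain ⟨σ, _, M, rfl⟩ := hL
  classical
  set z : Fin k := ⟨0, by omega⟩ with hz
  have hrep : ∀ ν : ℕ, ∃ v : List (Fin k), value k v = ν := fun ν => by
    obtain ⟨v, -, hv⟩ := exists_word (by omega : 1 ≤ k) ν ν (Nat.lt_pow_self (by omega))
    exact ⟨v, hv⟩
  choose rep hrepv using hrep
  set f : ℕ → σ := fun ν => M.eval ((rep ν).map fun d => (z, d)) with hf
  refine Set.Finite.subset (Set.finite_range (fun B : Set σ => {ν | f ν ∈ B})) ?_
  rintro B ⟨r, c, ρ, hc, hρ, rfl⟩
  obtain ⟨cw, hcw, hcv⟩ := exists_word (by omega : 1 ≤ k) r c hc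
  obtain ⟨ρw, hρw, hρv⟩ := exists_word (by omega : 1 ≤ k) r ρ hρ
  refine ⟨{s | M.evalFrom s (cw.zip ρw) ∈ M.accept}, ?_⟩
  ext ν
  show M.evalFrom (f ν) (cw.zip ρw) ∈ M.accept ↔ (c, k ^ r * ν + ρ) ∈ A
  have h1 := hd ((rep ν).map (fun d => (z, d)) ++ cw.zip ρw)
  rw [DFA.mem_accepts, DFA.eval, DFA.evalFrom_of_append] at h1
  have h2 : value k (((rep ν).map (fun d => (z, d)) ++ cw.zip ρw).map Prod.fst) = c := by
    rw [List.map_append, List.map_map, value_append, List.map_fst_zip (by omega), hcw, hcv]
    have : value k (List.map (Prod.fst ∘ fun d => (z, d)) (rep ν)) = 0 := value_zeros z rfl (rep ν)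
    rw [this]
    simp
  have h3 : value k (((rep ν).map (fun d => (z, d)) ++ cw.zip ρw).map Prod.snd) = k ^ r * ν + ρ := by
    rw [List.map_append, List.map_map, value_append, List.map_snd_zip (by omega), hρw, hρv]
    have : List.map (Prod.snd ∘ fun d => (z, d)) (rep ν) = rep ν := by
      rw [show (Prod.snd ∘ fun d : Fin k => (z, d)) = id from rfl, List.map_id]
    rw [this, hrepv, mul_comm]
  rw [h2, h3] at h1
  exact h1

/-- **Main theorem.** No inductive invariant of the six state machine Antihydra
(`1RB1RA_0LC1LE_1LD1LC_1LA0LB_1LF1RE_1RH0RA`) is automatic. Let `I` be any inductive invariant: a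
set of configurations which contains the start configuration on the blank tape, is closed under steps and contains no
stopped configuration (such sets exist exactly if the machine does not halt). Then for every base `k ≥ 2` the set
`pairs I` of the pairs `(c, n)` with `0^∞ 1^c 0 1^n E 0^∞` in `I` is not `k`-automatic: no regular language of words of
pairs of base `k` digits describes it. -/
theorem result (I : Set (Cfg 6)) (hI : Invariant antihydra I) (k : ℕ) (hk : 2 ≤ k)
    (L : Language (Fin k × Fin k)) (hL : L.IsRegular) : ¬ Describes k L (pairs I) :=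
  fun hd => kernel_infinite hI k hk (kernel_finite hk L hL hd)

end Pool.Agent.Results.MP_8c0c42_lc.AutomataBarrier
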