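import Pool.Agent.Helper31.BB6.Pairs

/-!
# MP_8c0c42_lc: an inductive invariant of the six state machine Antihydra must use all digits of the counter
-/

set_option autoImplicit false

namespace Pool.Agent.Results.MP_8c0c42_lc.DigitBarrier

open Turing Pool.Agent.Helper31.BB6

/-- **Main theorem.** Let `I` be any inductive invariant of the six state machine Antihydra
(`1RB1RA_0LC1LE_1LD1LC_1LA0LB_1LF1RE_1RH0RA`): a set of configurations which contains the start configuration on the
blank tape, is closed under steps and contains no stopped configuration (such sets exist exactly if the machine does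
not halt). `pairs I` is the set of the pairs `(c, n)` for which `0^∞ 1^c 0 1^n E 0^∞` is in `I`. For all `E ≥ 1` and `N`
there is a pair `(c, n)` in `pairs I` with `n ≥ N`, `2^c ≤ n^4`, such that the section `{n' | (c, n') ∈ pairs I}` contains no
residue class modulo `m` in a window `[a, a + l]` which reaches `n` or lies above `n`, if `l ≤ n / 2` and
`l ≥ n^(1/E) m^3`. So membership in an invariant cannot be decided without looking at almost all scales of the digits of
the counter `n`. -/
theorem result (I : Set (Cfg 6)) (hI : Invariant antihydra I) (E N : ℕ) (hE : 1 ≤ E) :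
    ∃ c n, (c, n) ∈ pairs I ∧ N ≤ n ∧ 2 ^ c ≤ n ^ 4 ∧
      ∀ a l m r, 1 ≤ m → n ≤ a + l → 2 * l ≤ n → n * m ^ (3 * E) ≤ l ^ E →
        ∃ n', a ≤ n' ∧ n' ≤ a + l ∧ n' ≡ r [MOD m] ∧ (c, n') ∉ pairs I :=
  nowhere_fat (clo hI) (start_pair hI) E N hE

end Pool.Agent.Results.MP_8c0c42_lc.DigitBarrier
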